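import Mathlib
import Pool.Agent.Lib.MP_bdd9a3_nt.SP.Mom

set_option autoImplicit false

/-!
Counting solutions of a congruence by characters, split by conductors; moments.
-/

namespace Pool.Agent.Lib.MP_bdd9a3_nt.UP

open Finset Pool.Agent.Lib.MP_bdd9a3_nt.SP

lemma rep_le (A : Finset ℕ) (hA : ∀ a ∈ A, 1 ≤ a) (k n : ℕ) :
    ((tup A k).filter (fun x => ∏ i, x i = n)).card ≤ n.divisors.card ^ k := by
  classical
  rcases Nat.eq_zero_or_pos n with h0 | h0
  · have : (tup A k).filter (fun x => ∏ i, x i = n) = ∅ := by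
      rw [filter_eq_empty_iff]
      intro x hx he
      have : 0 < ∏ i, x i := prod_pos fun i _ => hA _ (Fintype.mem_piFinset.1 hx i)
      omega
    rw [this]
    simp
  · calc ((tup A k).filter (fun x => ∏ i, x i = n)).card ≤
        (Fintype.piFinset fun _ : Fin k => n.divisors).card := by
          refine card_le_card fun x hx => ?_
          obtain ⟨_, hx2⟩ := mem_filter.1 hx
          rw [Fintype.mem_piFinset]
          intro i
          rw [Nat.mem_divisors]
          exact ⟨hx2 ▸ dvd_prod_of_mem x (mem_univ i), h0.ne'⟩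
      _ = n.divisors.card ^ k := by simp [Fintype.card_piFinset]

theorem momU : ∃ C : ℝ, 1 ≤ C ∧ ∀ (A F : Finset ℕ) (Y Q k : ℕ) (B : ℝ),
    (∀ a ∈ A, 1 ≤ a ∧ a ≤ Y) →
    (∀ n, n ≤ Y ^ k → (n.divisors.card : ℝ) ^ k ≤ B) →
    (∀ r ∈ F, 1 ≤ r ∧ r ≤ Q) → 1 ≤ Q →
    ∑ r ∈ F, ∑ ψ ∈ prim r, ‖SS A ψ‖ ^ (2 * k) ≤
      C * ((Y : ℝ) ^ k + 1 + (Q : ℝ) ^ 2) * (B * (A.card : ℝ) ^ k) := by
  classical
  obtain ⟨C', hC', h'⟩ := mls
  set C : ℝ := max C' 1 with hCdef
  have hC : 0 < C := lt_of_lt_of_le hC' (le_max_left _ _)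
  have h : ∀ (F : Finset ℕ) (Q N : ℕ) (a : ℕ → ℂ),
    (∀ r ∈ F, 1 ≤ r ∧ r ≤ Q) → 1 ≤ Q → 1 ≤ N →
    ∑ r ∈ F, ∑ ψ ∈ prim r, ‖∑ n ∈ range N, a n * ψ (n : ZMod r)‖ ^ 2 ≤
      C * (N + (Q : ℝ) ^ 2) * ∑ n ∈ range N, ‖a n‖ ^ 2 := by
    intro F Q N a h1 h2 h3
    refine (h' F Q N a h1 h2 h3).trans ?_
    refine mul_le_mul_of_nonneg_right ?_ (sum_nonneg fun _ _ => sq_nonneg _)
    exact mul_le_mul_of_nonneg_right (le_max_left _ _) (by positivity)
  refine ⟨C, le_max_right _ _, ?_⟩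
  intro P F Y Q k B hP hB hF hQ
  have hB0 : 0 ≤ B := le_trans (by positivity) (hB 0 (Nat.zero_le _))
  set a : ℕ → ℂ := fun n => (((tup P k).filter (fun x => ∏ i, x i = n)).card : ℂ) with ha
  have hlt : ∀ x ∈ tup P k, ∏ i, x i ∈ range (Y ^ k + 1) := by
    intro x hx
    rw [mem_range, Nat.lt_succ_iff]
    calc ∏ i, x i ≤ ∏ _i : Fin k, Y :=
          prod_le_prod' fun i _ => (hP _ (Fintype.mem_piFinset.1 hx i)).2
      _ = Y ^ k := by rw [prod_const, card_univ, Fintype.card_fin]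
  have h1 : ∀ (r : ℕ) (ψ : DirichletCharacter ℂ r),
      ∑ n ∈ range (Y ^ k + 1), a n * ψ (n : ZMod r) = SS P ψ ^ k := by
    intro r ψ
    rw [SS_pow, ← sum_fiberwise_of_maps_to hlt]
    refine sum_congr rfl fun n _ => ?_
    have : ∀ x ∈ (tup P k).filter (fun x => ∏ i, x i = n), ψ ((∏ i, x i : ℕ) : ZMod r) =
        ψ (n : ZMod r) := by
      intro x hx
      rw [(mem_filter.1 hx).2]
    rw [sum_congr rfl this, sum_const, nsmul_eq_mul]
  have h2 := h F Q (Y ^ k + 1) a hF hQ (Nat.succ_le_succ (Nat.zero_le _))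
  simp only [h1, norm_pow, ← pow_mul] at h2
  have h3 : ∑ n ∈ range (Y ^ k + 1), ‖a n‖ ^ 2 ≤ B * (P.card : ℝ) ^ k := by
    have h4 : ∀ n ∈ range (Y ^ k + 1), ‖a n‖ ^ 2 ≤
        B * (((tup P k).filter (fun x => ∏ i, x i = n)).card : ℝ) := by
      intro n hn
      rw [ha]
      simp only
      rw [Complex.norm_natCast, sq]
      refine mul_le_mul_of_nonneg_right ?_ (Nat.cast_nonneg _)
      refine le_trans ?_ (hB n (Nat.lt_succ_iff.1 (mem_range.1 hn)))
      exact_mod_cast rep_le P (fun p hp => (hP p hp).1) k n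
    refine (sum_le_sum h4).trans (le_of_eq ?_)
    rw [← Finset.mul_sum]
    congr 1
    have h5 := card_eq_sum_card_fiberwise (s := tup P k) (t := range (Y ^ k + 1))
      (f := fun x => ∏ i, x i) hlt
    rw [card_tup] at h5
    rw [← Nat.cast_sum]
    exact_mod_cast h5.symm
  have h7 : ∑ r ∈ F, ∑ ψ ∈ prim r, ‖SS P ψ‖ ^ (2 * k) =
      ∑ r ∈ F, ∑ ψ ∈ prim r, ‖SS P ψ‖ ^ (k * 2) := by
    simp only [mul_comm k 2]
  rw [h7]
  refine h2.trans ?_
  have h8 : ((Y ^ k + 1 : ℕ) : ℝ) = (Y : ℝ) ^ k + 1 := by push_cast; ring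
  rw [h8]
  refine mul_le_mul_of_nonneg_left h3 ?_
  positivity

open scoped Classical in
theorem count_le {d : ℕ} [NeZero d] (A G : Finset ℕ) (K : ℕ) :
    (((((tup A K) ×ˢ G).filter (fun s => d ∣ (∏ i, s.1 i) * s.2 + 1)).card : ℕ) : ℝ) *
      (d.totient : ℝ) ≤ G.card * ∑ χ : DirichletCharacter ℂ d, ‖SS A χ‖ ^ K := by
  have h1 : ∀ s ∈ (tup A K) ×ˢ G, ∑ χ : DirichletCharacter ℂ d,
      χ ((-1 : ZMod d)⁻¹) * χ (((∏ i, s.1 i) * s.2 : ℕ) : ZMod d) =
      if d ∣ (∏ i, s.1 i) * s.2 + 1 then (d.totient : ℂ) else 0 := by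
    intro s _
    rw [DirichletCharacter.sum_char_inv_mul_char_eq ℂ (a := (-1 : ZMod d)) isUnit_one.neg
      (((∏ i, s.1 i) * s.2 : ℕ) : ZMod d)]
    have : (-1 : ZMod d) = (((∏ i, s.1 i) * s.2 : ℕ) : ZMod d) ↔ d ∣ (∏ i, s.1 i) * s.2 + 1 := by
      rw [← ZMod.natCast_eq_zero_iff, Nat.cast_add, Nat.cast_one]
      constructor
      · intro h
        rw [← h]
        ring
      · intro h
        rw [eq_comm, ← add_eq_zero_iff_eq_neg]
        exact h
    simp only [this]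
  have h2 : ((((tup A K) ×ˢ G).filter (fun s => d ∣ (∏ i, s.1 i) * s.2 + 1)).card : ℂ) *
      (d.totient : ℂ) =
      ∑ χ : DirichletCharacter ℂ d, χ ((-1 : ZMod d)⁻¹) * (SS A χ ^ K * SS G χ) := by
    calc ((((tup A K) ×ˢ G).filter (fun s => d ∣ (∏ i, s.1 i) * s.2 + 1)).card : ℂ) *
        (d.totient : ℂ) = ∑ s ∈ (tup A K) ×ˢ G,
          (if d ∣ (∏ i, s.1 i) * s.2 + 1 then (d.totient : ℂ) else 0) := by
          rw [← sum_filter, sum_const, nsmul_eq_mul]
      _ = ∑ s ∈ (tup A K) ×ˢ G, ∑ χ : DirichletCharacter ℂ d,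
          χ ((-1 : ZMod d)⁻¹) * χ (((∏ i, s.1 i) * s.2 : ℕ) : ZMod d) :=
          (sum_congr rfl h1).symm
      _ = _ := by
          rw [sum_comm]
          refine sum_congr rfl fun χ _ => ?_
          rw [← Finset.mul_sum]
          congr 1
          rw [SS_pow, SS, sum_mul_sum, sum_product]
          refine sum_congr rfl fun t _ => sum_congr rfl fun g _ => ?_
          rw [Nat.cast_mul, map_mul]
  have h3 := congrArg norm h2
  rw [norm_mul, Complex.norm_natCast, Complex.norm_natCast] at h3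
  rw [h3]
  refine (norm_sum_le _ _).trans ?_
  rw [Finset.mul_sum]
  refine sum_le_sum fun χ _ => ?_
  rw [norm_mul, norm_mul, norm_pow]
  have h4 : ‖χ ((-1 : ZMod d)⁻¹)‖ ≤ 1 := DirichletCharacter.norm_le_one χ _
  have h5 : ‖SS G χ‖ ≤ G.card := by
    unfold SS
    refine (norm_sum_le _ _).trans ?_
    calc ∑ g ∈ G, ‖χ (g : ZMod d)‖ ≤ ∑ g ∈ G, (1 : ℝ) :=
          sum_le_sum fun g _ => DirichletCharacter.norm_le_one χ _
      _ = G.card := by simp
  calc ‖χ ((-1 : ZMod d)⁻¹)‖ * (‖SS A χ‖ ^ K * ‖SS G χ‖) ≤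
      1 * (‖SS A χ‖ ^ K * G.card) := by
        refine mul_le_mul h4 ?_ (by positivity) (by norm_num)
        exact mul_le_mul_of_nonneg_left h5 (by positivity)
    _ = G.card * ‖SS A χ‖ ^ K := by ring

open scoped Classical in
theorem sum_cond_le {d : ℕ} [NeZero d] (A : Finset ℕ) (K : ℕ) :
    ∑ χ : DirichletCharacter ℂ d, ‖SS A χ‖ ^ K ≤
      ∑ r ∈ d.divisors, ∑ ψ ∈ prim r, ‖SS (A.filter (fun a => a.Coprime (d / r))) ψ‖ ^ K := by
  have hd0 : d ≠ 0 := NeZero.ne d
  set g : (Σ c : ℕ, DirichletCharacter ℂ c) → ℝ :=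
    fun y => ‖SS (A.filter (fun a => a.Coprime (d / y.1))) y.2‖ ^ K with hg
  set e : DirichletCharacter ℂ d → (Σ c : ℕ, DirichletCharacter ℂ c) :=
    fun χ => ⟨χ.conductor, χ.primitiveCharacter⟩ with he
  have hinj : Function.Injective e := by
    set l : (Σ c : ℕ, DirichletCharacter ℂ c) → DirichletCharacter ℂ d :=
      fun y => if h : y.1 ∣ d then DirichletCharacter.changeLevel h y.2 else 1 with hl
    have : Function.LeftInverse l e := by
      intro χ
      simp only [hl, he]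
      rw [dif_pos χ.conductor_dvd_level]
      exact χ.changeLevel_primitiveCharacter
    exact this.injective
  have hSS : ∀ χ : DirichletCharacter ℂ d, SS A χ =
      SS (A.filter (fun a => a.Coprime (d / χ.conductor))) χ.primitiveCharacter := by
    intro χ
    unfold SS
    rw [sum_filter]
    refine sum_congr rfl fun a _ => ?_
    have hmul : χ.conductor * (d / χ.conductor) = d := Nat.mul_div_cancel' χ.conductor_dvd_level
    by_cases hc : a.Coprime d
    · have h1 := χ.primitiveCharacter_apply_of_isCoprime (a := (a : ℤ))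
        (Nat.isCoprime_iff_coprime.2 hc)
      simp only [Int.cast_natCast] at h1
      rw [if_pos, h1]
      exact Nat.Coprime.coprime_dvd_right (Dvd.intro_left _ hmul) hc
    · have h0 : χ (a : ZMod d) = 0 :=
        χ.map_nonunit (fun hu => hc ((ZMod.isUnit_iff_coprime a d).1 hu))
      rw [h0]
      split_ifs with h2
      · have hnc : ¬ a.Coprime χ.conductor := by
          intro h3
          apply hc
          rw [← hmul]
          exact Nat.Coprime.mul_right h3 h2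
        exact (χ.primitiveCharacter.map_nonunit
          (fun hu => hnc ((ZMod.isUnit_iff_coprime a _).1 hu))).symm
      · rfl
  rw [← Finset.sum_sigma (d.divisors) (fun c => prim c) (fun y => g y)]
  calc ∑ χ : DirichletCharacter ℂ d, ‖SS A χ‖ ^ K =
      ∑ χ : DirichletCharacter ℂ d, g (e χ) := by
        refine sum_congr rfl fun χ _ => ?_
        rw [hg, he]
        simp only
        rw [hSS χ]
    _ = ∑ y ∈ univ.image e, g y := by
        rw [sum_image fun x _ y _ h => hinj h]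
    _ ≤ _ := by
        refine sum_le_sum_of_subset_of_nonneg ?_ fun _ _ _ => by positivity
        intro y hy
        obtain ⟨χ, hχ, rfl⟩ := mem_image.1 hy
        rw [mem_sigma]
        refine ⟨?_, ?_⟩
        · rw [Nat.mem_divisors]
          exact ⟨χ.conductor_dvd_level, hd0⟩
        · have : NeZero χ.conductor := ⟨χ.conductor_ne_zero⟩
          change χ.primitiveCharacter ∈ prim χ.conductor
          rw [prim_eq, mem_filter]
          exact ⟨mem_univ _, χ.primitiveCharacter_isPrimitive⟩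

end Pool.Agent.Lib.MP_bdd9a3_nt.UP
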