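import Mathlib

set_option autoImplicit false

/-!
Rankin's bound for sums over smooth numbers.
-/

namespace Pool.Agent.Lib.MP_bdd9a3_nt.UP

open Finset

/-- `n` is a positive integer all of whose prime factors are at most `y` -/
def Sm (y n : ℕ) : Prop := n ≠ 0 ∧ ∀ p, p.Prime → p ∣ n → p ≤ y

lemma Sm.ne_zero {y n : ℕ} (h : Sm y n) : n ≠ 0 := h.1

lemma Sm.pos {y n : ℕ} (h : Sm y n) : 0 < n := Nat.pos_of_ne_zero h.1

lemma Sm.dvd {y n m : ℕ} (h : Sm y n) (hm : m ∣ n) : Sm y m :=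
  ⟨fun h0 => h.1 (Nat.eq_zero_of_zero_dvd (h0 ▸ hm)), fun p hp hpm => h.2 p hp (hpm.trans hm)⟩

lemma Sm_iff {y n : ℕ} : Sm y n ↔ n ∈ Nat.smoothNumbers (y + 1) := by
  rw [Nat.mem_smoothNumbers]
  constructor
  · rintro ⟨h0, h⟩
    refine ⟨h0, fun p hp => ?_⟩
    exact Nat.lt_succ_of_le (h p (Nat.prime_of_mem_primeFactorsList hp)
      (Nat.dvd_of_mem_primeFactorsList hp))
  · rintro ⟨h0, h⟩
    refine ⟨h0, fun p hp hpn => ?_⟩
    exact Nat.le_of_lt_succ (h p ((Nat.mem_primeFactorsList h0).2 ⟨hp, hpn⟩))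

/-- the function `n ^ (-σ)` -/
noncomputable def fs (σ : ℝ) : ℕ →* ℝ where
  toFun n := (n : ℝ) ^ (-σ)
  map_one' := by simp
  map_mul' a b := by
    push_cast
    exact Real.mul_rpow (Nat.cast_nonneg _) (Nat.cast_nonneg _)

lemma fs_apply (σ : ℝ) (n : ℕ) : fs σ n = (n : ℝ) ^ (-σ) := rfl

/-- the Euler product over the primes up to `y` -/
noncomputable def EE (σ : ℝ) (y : ℕ) : ℝ := ∏ p ∈ (y + 1).primesBelow, (1 - (p : ℝ) ^ (-σ))⁻¹

lemma prime_rpow_lt {σ : ℝ} (hσ : 0 < σ) {p : ℕ} (hp : p.Prime) : (p : ℝ) ^ (-σ) < 1 :=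
  Real.rpow_lt_one_of_one_lt_of_neg (by exact_mod_cast hp.one_lt) (by linarith)

lemma sum_le {σ : ℝ} (hσ : 0 < σ) (y : ℕ) (S : Finset ℕ) (hS : ∀ n ∈ S, Sm y n) :
    ∑ n ∈ S, (n : ℝ) ^ (-σ) ≤ EE σ y := by
  classical
  have h := EulerProduct.summable_and_hasSum_smoothNumbers_prod_primesBelow_geometric
    (f := fs σ) (fun {p} hp => by
      rw [fs_apply, Real.norm_of_nonneg (by positivity)]
      exact prime_rpow_lt hσ hp) (y + 1)
  have h2 := h.2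
  have h3 : ∏ p ∈ (y + 1).primesBelow, (1 - fs σ p)⁻¹ = EE σ y := rfl
  rw [h3] at h2
  set S' : Finset (Nat.smoothNumbers (y + 1)) := S.subtype (fun n => n ∈ Nat.smoothNumbers (y + 1))
    with hS'
  have h4 := sum_le_hasSum S' (fun m _ => by rw [fs_apply]; positivity) h2
  refine le_trans (le_of_eq ?_) h4
  rw [hS', Finset.sum_subtype_of_mem (f := fun m : ℕ => fs σ m) (fun n hn => Sm_iff.1 (hS n hn))]
  rfl

lemma EE_pos {σ : ℝ} (hσ : 0 < σ) (y : ℕ) : 0 < EE σ y := by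
  unfold EE
  refine prod_pos fun p hp => ?_
  have := prime_rpow_lt hσ (Nat.prime_of_mem_primesBelow hp)
  exact inv_pos.2 (by linarith)

lemma one_le_EE {σ : ℝ} (hσ : 0 < σ) (y : ℕ) : 1 ≤ EE σ y := by
  have := sum_le hσ y {1} (fun n hn => by
    rw [mem_singleton] at hn
    subst hn
    exact ⟨one_ne_zero, fun p hp h => absurd (Nat.le_of_dvd one_pos h) (by have := hp.two_le; omega)⟩)
  simpa using this

lemma sum_rpow_le {σ : ℝ} (hσ1 : σ ≤ 1) (y : ℕ) :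
    ∑ n ∈ Icc 1 y, (n : ℝ) ^ (-σ) ≤ (y : ℝ) ^ (1 - σ) * (1 + Real.log y) := by
  have h1 : ∀ n ∈ Icc 1 y, (n : ℝ) ^ (-σ) ≤ (y : ℝ) ^ (1 - σ) * (n : ℝ)⁻¹ := by
    intro n hn
    obtain ⟨h1, h2⟩ := mem_Icc.1 hn
    have hn0 : (0 : ℝ) < n := by exact_mod_cast h1
    have : (n : ℝ) ^ (-σ) = (n : ℝ) ^ (1 - σ) * (n : ℝ)⁻¹ := by
      rw [← Real.rpow_neg_one (n : ℝ), ← Real.rpow_add hn0]
      congr 1
      ring
    rw [this]
    refine mul_le_mul_of_nonneg_right ?_ (by positivity)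
    exact Real.rpow_le_rpow hn0.le (by exact_mod_cast h2) (by linarith)
  refine (sum_le_sum h1).trans ?_
  rw [← Finset.mul_sum]
  refine mul_le_mul_of_nonneg_left ?_ (by positivity)
  have h2 := harmonic_le_one_add_log y
  rw [harmonic_eq_sum_Icc] at h2
  push_cast at h2
  exact h2

lemma EE_le {σ : ℝ} (hσ : 1 / 2 ≤ σ) (hσ1 : σ ≤ 1) (y : ℕ) :
    EE σ y ≤ Real.exp (4 * ((y : ℝ) ^ (1 - σ) * (1 + Real.log y))) := by
  have hσ0 : 0 < σ := by linarith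
  have h1 : ∀ p ∈ (y + 1).primesBelow, (1 - (p : ℝ) ^ (-σ))⁻¹ ≤ Real.exp (4 * (p : ℝ) ^ (-σ)) := by
    intro p hp
    have hp' := Nat.prime_of_mem_primesBelow hp
    have hp2 : (2 : ℝ) ≤ p := by exact_mod_cast hp'.two_le
    set t : ℝ := (p : ℝ) ^ (-σ) with ht
    have ht0 : 0 ≤ t := by positivity
    have ht1 : t ≤ 3 / 4 := by
      have h2 : t ≤ (p : ℝ) ^ (-(1 / 2 : ℝ)) :=
        Real.rpow_le_rpow_of_exponent_le (by linarith) (by linarith)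
      have h3 : (p : ℝ) ^ (-(1 / 2 : ℝ)) ≤ (2 : ℝ) ^ (-(1 / 2 : ℝ)) :=
        Real.rpow_le_rpow_of_nonpos (by norm_num) hp2 (by norm_num)
      have h4 : (2 : ℝ) ^ (-(1 / 2 : ℝ)) ≤ 3 / 4 := by
        rw [Real.rpow_neg (by norm_num), ← Real.sqrt_eq_rpow, inv_le_comm₀ (by positivity) (by norm_num)]
        apply Real.le_sqrt_of_sq_le
        norm_num
      linarith
    have h5 : (1 - t)⁻¹ = 1 + t / (1 - t) := by
      have : (1 - t) ≠ 0 := by linarith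
      field_simp
      ring
    rw [h5]
    have h6 : t / (1 - t) ≤ 4 * t := by
      rw [div_le_iff₀ (by linarith)]
      nlinarith
    have := Real.add_one_le_exp (4 * t)
    linarith
  have h7 : EE σ y ≤ Real.exp (∑ p ∈ (y + 1).primesBelow, 4 * (p : ℝ) ^ (-σ)) := by
    rw [Real.exp_sum]
    unfold EE
    refine prod_le_prod (fun p hp => ?_) h1
    have := prime_rpow_lt hσ0 (Nat.prime_of_mem_primesBelow hp)
    exact inv_nonneg.2 (by linarith)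
  refine h7.trans (Real.exp_le_exp.2 ?_)
  rw [← Finset.mul_sum]
  refine mul_le_mul_of_nonneg_left ?_ (by norm_num)
  refine le_trans ?_ (sum_rpow_le hσ1 y)
  refine sum_le_sum_of_subset_of_nonneg ?_ fun _ _ _ => by positivity
  intro p hp
  have h8 := Nat.prime_of_mem_primesBelow hp
  have h9 := Nat.lt_of_mem_primesBelow hp
  rw [mem_Icc]
  exact ⟨h8.one_lt.le, by omega⟩

lemma card_le {σ : ℝ} (hσ : 0 < σ) (y : ℕ) (z : ℝ) (hz : 0 ≤ z) (S : Finset ℕ)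
    (hS : ∀ n ∈ S, Sm y n ∧ (n : ℝ) ≤ z) :
    (S.card : ℝ) ≤ z ^ σ * EE σ y := by
  have h1 : ∀ n ∈ S, (1 : ℝ) ≤ z ^ σ * (n : ℝ) ^ (-σ) := by
    intro n hn
    obtain ⟨h1, h2⟩ := hS n hn
    have hn0 : (0 : ℝ) < n := by exact_mod_cast h1.pos
    rw [Real.rpow_neg hn0.le, ← div_eq_mul_inv, one_le_div (by positivity)]
    exact Real.rpow_le_rpow hn0.le h2 hσ.le
  calc (S.card : ℝ) = ∑ n ∈ S, (1 : ℝ) := by simp
    _ ≤ ∑ n ∈ S, z ^ σ * (n : ℝ) ^ (-σ) := sum_le_sum h1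
    _ = z ^ σ * ∑ n ∈ S, (n : ℝ) ^ (-σ) := by rw [Finset.mul_sum]
    _ ≤ _ := mul_le_mul_of_nonneg_left (sum_le hσ y S fun n hn => (hS n hn).1) (by positivity)

end Pool.Agent.Lib.MP_bdd9a3_nt.UP
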