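import Mathlib
import Pool.Agent.Lib.MP_bdd9a3_nt.UP.Rankin

set_option autoImplicit false

/-!
Greedy factorisations of smooth numbers.
-/

namespace Pool.Agent.Lib.MP_bdd9a3_nt.UP

open Finset

lemma window1 {y n z : ℕ} (hn : Sm y n) (hz : 1 ≤ z) (hy : 2 ≤ y) (h : z ≤ n) :
    ∃ a, a ∣ n ∧ z ≤ a ∧ a < z * y := by
  classical
  have hex : ∃ a, a ∣ n ∧ z ≤ a := ⟨n, dvd_rfl, h⟩
  obtain ⟨h1, h2⟩ := Nat.find_spec hex
  refine ⟨Nat.find hex, h1, h2, ?_⟩
  set a := Nat.find hex with ha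
  by_cases ha1 : a = 1
  · rw [ha1]
    nlinarith
  · obtain ⟨p, hp, hpa⟩ := Nat.exists_prime_and_dvd ha1
    obtain ⟨b, hb⟩ := hpa
    have hpy : p ≤ y := hn.2 p hp ((Dvd.intro b hb.symm).trans h1)
    have hb0 : b < a := by
      have ha0 : 0 < a := lt_of_lt_of_le hz h2
      have hb1 : 0 < b := by
        rcases Nat.eq_zero_or_pos b with h0 | h0
        · rw [h0, mul_zero] at hb
          omega
        · exact h0
      have := hp.two_le
      nlinarith
    have hbz : b < z := by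
      by_contra hcon
      push Not at hcon
      have hbn : b ∣ n := (Dvd.intro_left p hb.symm).trans h1
      have := Nat.find_min' hex ⟨hbn, hcon⟩
      omega
    rw [hb, mul_comm]
    exact Nat.mul_lt_mul_of_lt_of_le hbz hpy (by omega)

lemma window2 {y n : ℕ} (D : ℝ) (hD : 1 ≤ D) (hn : Sm y n) (h : D < n) :
    ∃ a, a ∣ n ∧ D < a ∧ (a : ℝ) ≤ D * y := by
  classical
  have hex : ∃ a : ℕ, a ∣ n ∧ D < a := ⟨n, dvd_rfl, h⟩
  obtain ⟨h1, h2⟩ := Nat.find_spec hex
  refine ⟨Nat.find hex, h1, h2, ?_⟩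
  set a := Nat.find hex with ha
  by_cases ha1 : a = 1
  · rw [ha1] at h2
    push_cast at h2
    linarith
  · obtain ⟨p, hp, hpa⟩ := Nat.exists_prime_and_dvd ha1
    obtain ⟨b, hb⟩ := hpa
    have hpy : p ≤ y := hn.2 p hp ((Dvd.intro b hb.symm).trans h1)
    have hb0 : b < a := by
      have ha0 : 0 < a := by
        have : (0 : ℝ) < a := by linarith
        exact_mod_cast this
      have hb1 : 0 < b := by
        rcases Nat.eq_zero_or_pos b with h0 | h0
        · rw [h0, mul_zero] at hb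
          omega
        · exact h0
      have := hp.two_le
      nlinarith
    have hbz : (b : ℝ) ≤ D := by
      by_contra hcon
      push Not at hcon
      have hbn : b ∣ n := (Dvd.intro_left p hb.symm).trans h1
      have := Nat.find_min' hex ⟨hbn, hcon⟩
      omega
    rw [hb]
    push_cast
    have hpy' : (p : ℝ) ≤ y := by exact_mod_cast hpy
    calc (p : ℝ) * b ≤ y * D := mul_le_mul hpy' hbz (by positivity) (by positivity)
      _ = D * y := mul_comm _ _

lemma greedy {y z : ℕ} (hz : 1 ≤ z) (hy : 2 ≤ y) (K : ℕ) : ∀ n, Sm y n → (z * y) ^ K ≤ n →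
    ∃ t : Fin K → ℕ, ∃ g, n = (∏ i, t i) * g ∧ Sm y g ∧
      ∀ i, z ≤ t i ∧ t i < z * y ∧ Sm y (t i) := by
  induction K with
  | zero =>
    intro n hn _
    exact ⟨Fin.elim0, n, by simp, hn, fun i => i.elim0⟩
  | succ K ih =>
    intro n hn h
    have hzy : 0 < z * y := by positivity
    have h1 : z ≤ n := by
      calc z ≤ z * y := Nat.le_mul_of_pos_right _ (by omega)
        _ = (z * y) ^ 1 := (pow_one _).symm
        _ ≤ (z * y) ^ (K + 1) := Nat.pow_le_pow_right hzy (by omega)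
        _ ≤ n := h
    obtain ⟨a, ha1, ha2, ha3⟩ := window1 hn hz hy h1
    obtain ⟨m, hm⟩ := ha1
    have hm1 : (z * y) ^ K ≤ m := by
      by_contra hcon
      push Not at hcon
      have : n < (z * y) ^ (K + 1) := by
        rw [hm, pow_succ, mul_comm ((z * y) ^ K)]
        exact Nat.mul_lt_mul_of_lt_of_le ha3 hcon.le (by positivity)
      omega
    obtain ⟨t, g, h2, h3, h4⟩ := ih m (hn.dvd (Dvd.intro_left a hm.symm)) hm1
    refine ⟨Fin.cons a t, g, ?_, h3, ?_⟩
    · rw [Fin.prod_univ_succ, Fin.cons_zero]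
      simp only [Fin.cons_succ]
      rw [hm, h2]
      ring
    · intro i
      refine Fin.cases ?_ (fun i => ?_) i
      · rw [Fin.cons_zero]
        exact ⟨ha2, ha3, hn.dvd (Dvd.intro m hm.symm)⟩
      · rw [Fin.cons_succ]
        exact h4 i

end Pool.Agent.Lib.MP_bdd9a3_nt.UP
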