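import Mathlib
import Pool.Agent.Lib.MP_bdd9a3_nt.UP.Greedy
import Pool.Agent.Lib.MP_bdd9a3_nt.UP.Chars

set_option autoImplicit false

/-!
The combinatorial part of the upper bound.
-/

namespace Pool.Agent.Lib.MP_bdd9a3_nt.UP

open Finset Pool.Agent.Lib.MP_bdd9a3_nt.SP

open scoped Classical in
/-- a window of smooth numbers -/
noncomputable def AA (y z : ℕ) : Finset ℕ := (Ico z (z * y)).filter (fun a => Sm y a)

open scoped Classical in
/-- the smooth `n` for which `n + 1` has a large smooth divisor -/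
noncomputable def NN (x y : ℕ) (D : ℝ) : Finset ℕ :=
  (Icc 1 x).filter (fun n => Sm y n ∧ ∃ d : ℕ, d ∣ n + 1 ∧ D < d ∧ Sm y d)

open scoped Classical in
/-- the smooth numbers in `(D, D y]` -/
noncomputable def DY (y : ℕ) (D : ℝ) : Finset ℕ :=
  (Icc 1 ⌊D * y⌋₊).filter (fun d => Sm y d ∧ D < d)

open scoped Classical in
/-- the smooth numbers up to `D y` -/
noncomputable def HH (y : ℕ) (D : ℝ) : Finset ℕ := (Icc 1 ⌊D * y⌋₊).filter (fun d => Sm y d)

open scoped Classical in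
/-- the solutions for one divisor -/
noncomputable def SO (y z K d : ℕ) : Finset ((Fin K → ℕ) × ℕ) :=
  ((tup (AA y z) K) ×ˢ (Icc 1 (z * y ^ (K + 1)))).filter (fun s => d ∣ (∏ i, s.1 i) * s.2 + 1)

lemma NN_card_le {x y z m : ℕ} {D : ℝ} (hD : 1 ≤ D) (hz : 1 ≤ z) (hy : 2 ≤ y)
    (hx : x < (z * y) ^ (m + 1)) :
    (NN x y D).card ≤ ∑ K ∈ (range (m + 1)).filter (fun K => (z * y) ^ K ≤ x),
      ∑ d ∈ DY y D, (SO y z K d).card := by
  classical
  have hsub : NN x y D ⊆ ((range (m + 1)).filter (fun K => (z * y) ^ K ≤ x)).biUnion fun K =>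
      (DY y D).biUnion fun d => (SO y z K d).image (fun s => (∏ i, s.1 i) * s.2) := by
    intro n hn
    unfold NN at hn
    rw [mem_filter, mem_Icc] at hn
    obtain ⟨⟨hn1, hn2⟩, hsm, d0, hd1, hd2, hd3⟩ := hn
    have hzy : 1 < z * y := by nlinarith
    obtain ⟨d, hd4, hd5, hd6⟩ := window2 D hD hd3 hd2
    set K := Nat.log (z * y) n with hK
    have hK1 : (z * y) ^ K ≤ n := Nat.pow_log_le_self _ (by omega)
    have hK2 : n < (z * y) ^ (K + 1) := Nat.lt_pow_succ_log_self hzy n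
    have hKm : K < m + 1 := by
      by_contra hcon
      push Not at hcon
      have := Nat.pow_le_pow_right (n := z * y) (by omega) hcon
      omega
    obtain ⟨t, g, h1, h2, h3⟩ := greedy hz hy K n hsm hK1
    rw [mem_biUnion]
    refine ⟨K, mem_filter.2 ⟨mem_range.2 hKm, hK1.trans hn2⟩, ?_⟩
    rw [mem_biUnion]
    have hdsm : Sm y d := hd3.dvd hd4
    refine ⟨d, ?_, ?_⟩
    · unfold DY
      rw [mem_filter, mem_Icc]
      exact ⟨⟨hdsm.pos, Nat.le_floor hd6⟩, hdsm, hd5⟩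
    · rw [mem_image]
      refine ⟨(t, g), ?_, h1.symm⟩
      unfold SO
      rw [mem_filter, mem_product]
      refine ⟨⟨?_, ?_⟩, ?_⟩
      · unfold tup
        rw [Fintype.mem_piFinset]
        intro i
        unfold AA
        rw [mem_filter, mem_Ico]
        exact ⟨⟨(h3 i).1, (h3 i).2.1⟩, (h3 i).2.2⟩
      · rw [mem_Icc]
        refine ⟨h2.pos, ?_⟩
        have h4 : z ^ K ≤ ∏ i, t i := by
          calc z ^ K = ∏ _i : Fin K, z := by rw [prod_const, card_univ, Fintype.card_fin]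
            _ ≤ ∏ i, t i := prod_le_prod' fun i _ => (h3 i).1
        have h5 : z ^ K * g < z ^ K * (z * y ^ (K + 1)) := by
          calc z ^ K * g ≤ (∏ i, t i) * g := Nat.mul_le_mul_right _ h4
            _ = n := h1.symm
            _ < (z * y) ^ (K + 1) := hK2
            _ = z ^ K * (z * y ^ (K + 1)) := by rw [mul_pow, pow_succ z K]; ring
        exact (lt_of_mul_lt_mul_left h5 (Nat.zero_le _)).le
      · change d ∣ (∏ i, t i) * g + 1
        rw [← h1]
        exact hd4.trans hd1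
  refine (card_le_card hsub).trans (card_biUnion_le.trans (sum_le_sum fun K _ => ?_))
  exact card_biUnion_le.trans (sum_le_sum fun d _ => card_image_le)

open scoped Classical in
/-- the sum over the characters of conductor at most `Q` -/
noncomputable def SK (y z K h Q : ℕ) : ℝ :=
  ∑ r ∈ Icc 1 Q, ∑ ψ ∈ prim r, ‖SS ((AA y z).filter (fun a => a.Coprime h)) ψ‖ ^ K

lemma SK_nonneg (y z K h Q : ℕ) : 0 ≤ SK y z K h Q :=
  sum_nonneg fun _ _ => sum_nonneg fun _ _ => by positivity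

lemma SO_le {y z K : ℕ} {D T : ℝ} (hD : 1 ≤ D) (hT : 0 ≤ T)
    (hφ : ∀ d ∈ DY y D, (d : ℝ) ≤ T * d.totient) :
    ∑ d ∈ DY y D, ((SO y z K d).card : ℝ) ≤
      (z * y ^ (K + 1) : ℕ) * (T / D) * ∑ h ∈ HH y D, SK y z K h ⌊D * y / h⌋₊ := by
  classical
  have hD0 : 0 < D := by linarith
  set f : ℕ → ℕ → ℝ := fun r h =>
    ∑ ψ ∈ prim r, ‖SS ((AA y z).filter (fun a => a.Coprime h)) ψ‖ ^ K
  have hf0 : ∀ r h, 0 ≤ f r h := fun r h => sum_nonneg fun _ _ => by positivity
  have h1 : ∀ d ∈ DY y D, ((SO y z K d).card : ℝ) ≤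
      (z * y ^ (K + 1) : ℕ) * (T / D) * ∑ r ∈ d.divisors, f r (d / r) := by
    intro d hd
    have hd' := hd
    unfold DY at hd'
    rw [mem_filter, mem_Icc] at hd'
    obtain ⟨⟨hd1, _⟩, hd2, hd3⟩ := hd'
    have : NeZero d := ⟨hd2.ne_zero⟩
    have h2 := count_le (d := d) (AA y z) (Icc 1 (z * y ^ (K + 1))) K
    have h3 := sum_cond_le (d := d) (AA y z) K
    have h4 := hφ d hd
    have hφ0 : (0 : ℝ) < d.totient := by exact_mod_cast Nat.totient_pos.2 hd2.pos
    have hd0 : (0 : ℝ) < d := by exact_mod_cast hd2.pos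
    have h5 : ((SO y z K d).card : ℝ) * (d.totient : ℝ) ≤
        (z * y ^ (K + 1) : ℕ) * ∑ r ∈ d.divisors, f r (d / r) := by
      refine h2.trans ?_
      rw [Nat.card_Icc, Nat.add_sub_cancel]
      exact mul_le_mul_of_nonneg_left h3 (Nat.cast_nonneg _)
    set F : ℝ := ∑ r ∈ d.divisors, f r (d / r) with hF
    have hF0 : 0 ≤ F := sum_nonneg fun _ _ => hf0 _ _
    have h6 : ((SO y z K d).card : ℝ) ≤ (z * y ^ (K + 1) : ℕ) * F / d.totient := by
      rw [le_div_iff₀ hφ0]
      exact h5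
    refine h6.trans ?_
    have h7 : (1 : ℝ) / d.totient ≤ T / D := by
      rw [div_le_div_iff₀ hφ0 hD0]
      linarith
    calc (z * y ^ (K + 1) : ℕ) * F / d.totient =
        (z * y ^ (K + 1) : ℕ) * F * (1 / d.totient) := by ring
      _ ≤ (z * y ^ (K + 1) : ℕ) * F * (T / D) := by gcongr
      _ = _ := by ring
  refine (sum_le_sum h1).trans ?_
  rw [← Finset.mul_sum]
  refine mul_le_mul_of_nonneg_left ?_ (by positivity)
  have h8 : ∀ h ∈ HH y D, SK y z K h ⌊D * y / h⌋₊ = ∑ r ∈ Icc 1 ⌊D * y / h⌋₊, f r h :=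
    fun h _ => rfl
  rw [sum_congr rfl h8]
  clear_value f
  rw [Finset.sum_sigma', Finset.sum_sigma']
  set e : (Σ _ : ℕ, ℕ) → (Σ _ : ℕ, ℕ) := fun p => ⟨p.1 / p.2, p.2⟩ with he
  have hinj : Set.InjOn e ((DY y D).sigma fun d => d.divisors) := by
    rintro ⟨d, r⟩ hp ⟨d', r'⟩ hp' h
    simp only [he] at h
    rw [mem_coe, mem_sigma] at hp hp'
    have h9 : r = r' := (Sigma.mk.inj h).2 |> eq_of_heq
    have h10 : d / r = d' / r' := (Sigma.mk.inj h).1
    have h11 : d = d / r * r := (Nat.div_mul_cancel (Nat.dvd_of_mem_divisors hp.2)).symm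
    have h12 : d' = d' / r' * r' := (Nat.div_mul_cancel (Nat.dvd_of_mem_divisors hp'.2)).symm
    have h13 : d = d' := by
      rw [h11, h12, h10, h9]
    rw [h13, h9]
  calc ∑ p ∈ (DY y D).sigma fun d => d.divisors, f p.2 (p.1 / p.2) =
      ∑ p ∈ (DY y D).sigma fun d => d.divisors, (fun q : (Σ _ : ℕ, ℕ) => f q.2 q.1) (e p) := rfl
    _ = ∑ q ∈ ((DY y D).sigma fun d => d.divisors).image e, f q.2 q.1 := by
        rw [sum_image hinj]
    _ ≤ _ := by
        refine sum_le_sum_of_subset_of_nonneg ?_ fun _ _ _ => hf0 _ _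
        intro q hq
        obtain ⟨⟨d, r⟩, hp, rfl⟩ := mem_image.1 hq
        rw [mem_sigma] at hp
        obtain ⟨hp1, hp2⟩ := hp
        simp only at hp1 hp2
        unfold DY at hp1
        rw [mem_filter, mem_Icc] at hp1
        obtain ⟨⟨hd1, hd2⟩, hd3, hd4⟩ := hp1
        have hrd : r ∣ d := Nat.dvd_of_mem_divisors hp2
        have hr0 : 0 < r := Nat.pos_of_mem_divisors hp2
        have hq0 : 0 < d / r := Nat.div_pos (Nat.le_of_dvd hd3.pos hrd) hr0
        have hqr : d / r * r = d := Nat.div_mul_cancel hrd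
        have hdD : (d : ℝ) ≤ D * y := by
          have := Nat.floor_le (a := D * y) (by positivity)
          exact le_trans (by exact_mod_cast hd2) this
        rw [mem_sigma]
        refine ⟨?_, ?_⟩
        · change d / r ∈ HH y D
          unfold HH
          rw [mem_filter, mem_Icc]
          exact ⟨⟨hq0, (Nat.div_le_self d r).trans hd2⟩, hd3.dvd (Nat.div_dvd_of_dvd hrd)⟩
        · change r ∈ Icc 1 ⌊D * y / ((d / r : ℕ) : ℝ)⌋₊
          rw [mem_Icc]
          refine ⟨hr0, Nat.le_floor ?_⟩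
          rw [le_div_iff₀ (by exact_mod_cast hq0)]
          refine le_trans (le_of_eq ?_) hdD
          rw [mul_comm]
          exact_mod_cast hqr

end Pool.Agent.Lib.MP_bdd9a3_nt.UP
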