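import Mathlib
import Pool.Agent.Lib.MP_bdd9a3_nt.UP.Raw

set_option autoImplicit false

/-!
The sum over the characters of small conductor.
-/

namespace Pool.Agent.Lib.MP_bdd9a3_nt.UP

open Finset Pool.Agent.Lib.MP_bdd9a3_nt.SP

theorem SK_le : ∃ C : ℝ, 1 ≤ C ∧ ∀ (y z K h Q m : ℕ) (X E σ τ0 : ℝ),
    1 ≤ z → 2 ≤ y → K ≤ m → 1 ≤ Q → 1 ≤ E → 0 ≤ σ → σ ≤ 1 → 1 ≤ τ0 →
    (((z * y) ^ K : ℕ) : ℝ) ≤ X →
    ((AA y z).card : ℝ) ≤ ((z * y : ℕ) : ℝ) ^ σ * E →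
    (∀ n : ℕ, (n : ℝ) ≤ X → (n.divisors.card : ℝ) ≤ τ0) →
    SK y z K h Q ≤ (3 * C * τ0 ^ m * E ^ m * (z * (y : ℝ) ^ (m + 1))) *
      (X ^ σ * ((Q : ℝ) ^ 2) ^ (1 - σ) + X ^ (σ / 2) * (Q : ℝ) ^ 2) := by
  classical
  obtain ⟨C, hC, hmom⟩ := momU
  refine ⟨C, hC, ?_⟩
  intro y z K h Q m X E σ τ0 hz hy hKm hQ hE hσ0 hσ1 hτ0 hX hcard hdiv
  have hC0 : 0 < C := by linarith
  have hy1 : (1 : ℝ) ≤ y := by exact_mod_cast (show 1 ≤ y by omega)
  have hz1 : (1 : ℝ) ≤ z := by exact_mod_cast hz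
  have hQ1 : (1 : ℝ) ≤ Q := by exact_mod_cast hQ
  have hQ2 : (1 : ℝ) ≤ (Q : ℝ) ^ 2 := one_le_pow₀ hQ1
  set Y : ℝ := ((z * y : ℕ) : ℝ) with hY
  have hYeq : Y = z * y := by rw [hY]; push_cast; ring
  have hY1 : 1 ≤ Y := by rw [hYeq]; nlinarith
  have hXY : Y ^ K ≤ X := by
    rw [hY]
    exact_mod_cast hX
  have hX1 : 1 ≤ X := (one_le_pow₀ hY1).trans hXY
  set a : ℝ := Y ^ σ * E with ha
  have hYσ : 1 ≤ Y ^ σ := Real.one_le_rpow hY1 hσ0
  have ha1 : 1 ≤ a := by rw [ha]; nlinarith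
  set A : Finset ℕ := (AA y z).filter (fun a => a.Coprime h) with hA
  have hAcard : (A.card : ℝ) ≤ a := by
    refine le_trans ?_ hcard
    exact_mod_cast card_le_card (filter_subset _ _)
  have hAmem : ∀ b ∈ A, 1 ≤ b ∧ b ≤ z * y := by
    intro b hb
    rw [hA, mem_filter] at hb
    have h1 := hb.1
    unfold AA at h1
    rw [mem_filter, mem_Ico] at h1
    exact ⟨hz.trans h1.1.1, h1.1.2.le⟩
  -- the general inequality
  have gen : ∀ k, 2 * k ≤ K → SK y z K h Q ≤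
      C * (Y ^ k + 1 + (Q : ℝ) ^ 2) * (τ0 ^ k * a ^ (K - k)) := by
    intro k hk
    have h1 := hmom A (Icc 1 Q) (z * y) Q k (τ0 ^ k) hAmem (fun n hn => by
      refine pow_le_pow_left₀ (Nat.cast_nonneg _) (hdiv n ?_) k
      have h2 : (n : ℝ) ≤ Y ^ k := by
        rw [hY]
        exact_mod_cast hn
      exact h2.trans ((pow_le_pow_right₀ hY1 (by omega)).trans hXY))
      (fun r hr => mem_Icc.1 hr) hQ
    have h3 : SK y z K h Q ≤ ∑ r ∈ Icc 1 Q, ∑ ψ ∈ prim r, a ^ (K - 2 * k) * ‖SS A ψ‖ ^ (2 * k) := by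
      unfold SK
      refine sum_le_sum fun r _ => sum_le_sum fun ψ _ => ?_
      have h4 : ‖SS A ψ‖ ≤ a := by
        refine le_trans ?_ hAcard
        unfold SS
        refine (norm_sum_le _ _).trans ?_
        calc ∑ g ∈ A, ‖ψ (g : ZMod r)‖ ≤ ∑ g ∈ A, (1 : ℝ) :=
              sum_le_sum fun g _ => DirichletCharacter.norm_le_one ψ _
          _ = A.card := by simp
      calc ‖SS A ψ‖ ^ K = ‖SS A ψ‖ ^ (K - 2 * k) * ‖SS A ψ‖ ^ (2 * k) := by
            rw [← pow_add]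
            congr 1
            omega
        _ ≤ _ := by
            refine mul_le_mul_of_nonneg_right ?_ (by positivity)
            exact pow_le_pow_left₀ (norm_nonneg _) h4 _
    simp only [← Finset.mul_sum] at h3
    refine h3.trans ?_
    have h5 : ((z * y : ℕ) : ℝ) = Y := rfl
    rw [h5] at h1
    have h6 : (A.card : ℝ) ^ k ≤ a ^ k := pow_le_pow_left₀ (Nat.cast_nonneg _) hAcard k
    calc a ^ (K - 2 * k) * ∑ r ∈ Icc 1 Q, ∑ ψ ∈ prim r, ‖SS A ψ‖ ^ (2 * k) ≤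
        a ^ (K - 2 * k) * (C * (Y ^ k + 1 + (Q : ℝ) ^ 2) * (τ0 ^ k * (A.card : ℝ) ^ k)) :=
          mul_le_mul_of_nonneg_left h1 (by positivity)
      _ ≤ a ^ (K - 2 * k) * (C * (Y ^ k + 1 + (Q : ℝ) ^ 2) * (τ0 ^ k * a ^ k)) := by gcongr
      _ = C * (Y ^ k + 1 + (Q : ℝ) ^ 2) * (τ0 ^ k * (a ^ (K - 2 * k) * a ^ k)) := by ring
      _ = _ := by
          rw [← pow_add]
          congr 3
          omega
  have hapow : ∀ k, k ≤ K → a ^ (K - k) ≤ E ^ m * (Y ^ (K - k)) ^ σ := by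
    intro k _
    rw [ha, mul_pow, ← Real.rpow_natCast (Y ^ σ), ← Real.rpow_mul (by linarith), mul_comm σ,
      Real.rpow_mul (by linarith), Real.rpow_natCast, mul_comm]
    refine mul_le_mul_of_nonneg_right ?_ (by positivity)
    exact pow_le_pow_right₀ hE (by omega)
  have hzy : (z : ℝ) * (y : ℝ) ^ m ≤ z * (y : ℝ) ^ (m + 1) := by
    refine mul_le_mul_of_nonneg_left ?_ (by linarith)
    exact pow_le_pow_right₀ hy1 (by omega)
  have hp1 : 0 ≤ X ^ σ * ((Q : ℝ) ^ 2) ^ (1 - σ) := by positivity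
  have hp2 : 0 ≤ X ^ (σ / 2) * (Q : ℝ) ^ 2 := by positivity
  by_cases hcase : ∃ k, 2 * k ≤ K ∧ Q ^ 2 ≤ z ^ k
  · obtain ⟨k', hk'1, hk'2⟩ := hcase
    have hex : ∃ k, Q ^ 2 ≤ z ^ k := ⟨k', hk'2⟩
    set k := Nat.find hex with hk
    have hk1 : Q ^ 2 ≤ z ^ k := Nat.find_spec hex
    have hkk : k ≤ k' := Nat.find_min' hex hk'2
    have hkK : 2 * k ≤ K := by omega
    have hk2 : z ^ k ≤ z * Q ^ 2 := by
      rcases Nat.eq_zero_or_pos k with h0 | h0
      · rw [h0, pow_zero]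
        have : 0 < z * Q ^ 2 := by positivity
        omega
      · have h1 : ¬ Q ^ 2 ≤ z ^ (k - 1) := Nat.find_min hex (by omega)
        push Not at h1
        calc z ^ k = z * z ^ (k - 1) := by
              rw [← pow_succ']
              congr 1
              omega
          _ ≤ z * Q ^ 2 := Nat.mul_le_mul_left _ h1.le
    have hk1' : (Q : ℝ) ^ 2 ≤ (z : ℝ) ^ k := by exact_mod_cast hk1
    have hk2' : (z : ℝ) ^ k ≤ z * (Q : ℝ) ^ 2 := by exact_mod_cast hk2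
    have hYk : (z : ℝ) ^ k ≤ Y ^ k := by
      refine pow_le_pow_left₀ (by linarith) ?_ k
      rw [hYeq]
      nlinarith
    have hY3 : Y ^ k + 1 + (Q : ℝ) ^ 2 ≤ 3 * Y ^ k := by
      have : 1 ≤ Y ^ k := one_le_pow₀ hY1
      linarith
    have h7 := gen k hkK
    have h8 := hapow k (by omega)
    have hYk0 : 0 < Y ^ k := by positivity
    have h9 : (Y ^ (K - k)) ^ σ * Y ^ k ≤ X ^ σ * (((Q : ℝ) ^ 2) ^ (1 - σ) * (z * (y : ℝ) ^ m)) := by
      have e1 : Y ^ k = (Y ^ k) ^ σ * (Y ^ k) ^ (1 - σ) := by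
        rw [← Real.rpow_add hYk0]
        simp
      calc (Y ^ (K - k)) ^ σ * Y ^ k = (Y ^ (K - k)) ^ σ * ((Y ^ k) ^ σ * (Y ^ k) ^ (1 - σ)) := by
            rw [← e1]
        _ = (Y ^ (K - k) * Y ^ k) ^ σ * (Y ^ k) ^ (1 - σ) := by
            rw [Real.mul_rpow (by positivity) (by positivity)]
            ring
        _ = (Y ^ K) ^ σ * (Y ^ k) ^ (1 - σ) := by
            rw [← pow_add]
            congr 3
            omega
        _ ≤ X ^ σ * (((Q : ℝ) ^ 2) ^ (1 - σ) * (z * (y : ℝ) ^ m)) := by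
            refine mul_le_mul (Real.rpow_le_rpow (by positivity) hXY hσ0) ?_ (by positivity)
              (by positivity)
            have e2 : Y ^ k ≤ (Q : ℝ) ^ 2 * (z * (y : ℝ) ^ m) := by
              rw [hYeq, mul_pow]
              calc (z : ℝ) ^ k * (y : ℝ) ^ k ≤ (z * (Q : ℝ) ^ 2) * (y : ℝ) ^ m := by
                    refine mul_le_mul hk2' ?_ (by positivity) (by positivity)
                    exact pow_le_pow_right₀ hy1 (by omega)
                _ = _ := by ring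
            have e3 : 1 ≤ (z : ℝ) * (y : ℝ) ^ m := by
              have : 1 ≤ (y : ℝ) ^ m := one_le_pow₀ hy1
              nlinarith
            calc (Y ^ k) ^ (1 - σ) ≤ ((Q : ℝ) ^ 2 * (z * (y : ℝ) ^ m)) ^ (1 - σ) :=
                  Real.rpow_le_rpow hYk0.le e2 (by linarith)
              _ = ((Q : ℝ) ^ 2) ^ (1 - σ) * ((z : ℝ) * (y : ℝ) ^ m) ^ (1 - σ) := by
                  rw [Real.mul_rpow (by positivity) (by positivity)]
              _ ≤ ((Q : ℝ) ^ 2) ^ (1 - σ) * (z * (y : ℝ) ^ m) := by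
                  refine mul_le_mul_of_nonneg_left ?_ (by positivity)
                  calc ((z : ℝ) * (y : ℝ) ^ m) ^ (1 - σ) ≤ ((z : ℝ) * (y : ℝ) ^ m) ^ (1 : ℝ) :=
                        Real.rpow_le_rpow_of_exponent_le e3 (by linarith)
                    _ = _ := Real.rpow_one _
    calc SK y z K h Q ≤ C * (Y ^ k + 1 + (Q : ℝ) ^ 2) * (τ0 ^ k * a ^ (K - k)) := h7
      _ ≤ C * (3 * Y ^ k) * (τ0 ^ m * (E ^ m * (Y ^ (K - k)) ^ σ)) := by
          have e4 : τ0 ^ k ≤ τ0 ^ m := pow_le_pow_right₀ hτ0 (by omega)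
          refine mul_le_mul (mul_le_mul_of_nonneg_left hY3 hC0.le) ?_ (by positivity)
            (by positivity)
          exact mul_le_mul e4 h8 (by positivity) (by positivity)
      _ = 3 * C * τ0 ^ m * E ^ m * ((Y ^ (K - k)) ^ σ * Y ^ k) := by ring
      _ ≤ 3 * C * τ0 ^ m * E ^ m *
          (X ^ σ * (((Q : ℝ) ^ 2) ^ (1 - σ) * (z * (y : ℝ) ^ m))) := by gcongr
      _ = (3 * C * τ0 ^ m * E ^ m * (z * (y : ℝ) ^ m)) * (X ^ σ * ((Q : ℝ) ^ 2) ^ (1 - σ)) := by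
          ring
      _ ≤ _ := by
          refine mul_le_mul ?_ (by linarith) hp1 (by positivity)
          gcongr
  · push Not at hcase
    set k := K / 2 with hk
    have hkK : 2 * k ≤ K := by omega
    have hk1 : z ^ k < Q ^ 2 := hcase k hkK
    have hk1' : (z : ℝ) ^ k ≤ (Q : ℝ) ^ 2 := by exact_mod_cast hk1.le
    have h7 := gen k hkK
    have h8 := hapow k (by omega)
    have hyk : (y : ℝ) ^ k ≤ (y : ℝ) ^ m := pow_le_pow_right₀ hy1 (by omega)
    have hym : 1 ≤ (y : ℝ) ^ m := one_le_pow₀ hy1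
    have hY3 : Y ^ k + 1 + (Q : ℝ) ^ 2 ≤ 3 * ((y : ℝ) ^ m * (Q : ℝ) ^ 2) := by
      have e1 : Y ^ k ≤ (y : ℝ) ^ m * (Q : ℝ) ^ 2 := by
        rw [hYeq, mul_pow, mul_comm]
        exact mul_le_mul hyk hk1' (by positivity) (by positivity)
      have e2 : (Q : ℝ) ^ 2 ≤ (y : ℝ) ^ m * (Q : ℝ) ^ 2 := by nlinarith
      linarith
    have h9 : (Y ^ (K - k)) ^ σ ≤ X ^ (σ / 2) * (z * y) := by
      have e1 : (Y ^ (K - k)) ^ 2 ≤ X * Y := by
        rw [← pow_mul]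
        calc Y ^ ((K - k) * 2) ≤ Y ^ (K + 1) := pow_le_pow_right₀ hY1 (by omega)
          _ = Y ^ K * Y := pow_succ _ _
          _ ≤ X * Y := by gcongr
      have e2 : (Y ^ (K - k)) ^ σ = ((Y ^ (K - k)) ^ 2) ^ (σ / 2) := by
        rw [← Real.rpow_natCast (Y ^ (K - k)) 2, ← Real.rpow_mul (by positivity)]
        congr 1
        push_cast
        ring
      rw [e2]
      calc ((Y ^ (K - k)) ^ 2) ^ (σ / 2) ≤ (X * Y) ^ (σ / 2) :=
            Real.rpow_le_rpow (by positivity) e1 (by linarith)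
        _ = X ^ (σ / 2) * Y ^ (σ / 2) := Real.mul_rpow (by linarith) (by linarith)
        _ ≤ X ^ (σ / 2) * (z * y) := by
            refine mul_le_mul_of_nonneg_left ?_ (by positivity)
            rw [← hYeq]
            calc Y ^ (σ / 2) ≤ Y ^ (1 : ℝ) :=
                  Real.rpow_le_rpow_of_exponent_le hY1 (by linarith)
              _ = Y := Real.rpow_one _
    calc SK y z K h Q ≤ C * (Y ^ k + 1 + (Q : ℝ) ^ 2) * (τ0 ^ k * a ^ (K - k)) := h7
      _ ≤ C * (3 * ((y : ℝ) ^ m * (Q : ℝ) ^ 2)) * (τ0 ^ m * (E ^ m * (X ^ (σ / 2) * (z * y)))) := by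
          have e4 : τ0 ^ k ≤ τ0 ^ m := pow_le_pow_right₀ hτ0 (by omega)
          refine mul_le_mul (mul_le_mul_of_nonneg_left hY3 hC0.le) ?_ (by positivity)
            (by positivity)
          refine mul_le_mul e4 (h8.trans ?_) (by positivity) (by positivity)
          gcongr
      _ = (3 * C * τ0 ^ m * E ^ m * (z * (y : ℝ) ^ (m + 1))) * (X ^ (σ / 2) * (Q : ℝ) ^ 2) := by
          ring
      _ ≤ _ := by
          refine mul_le_mul_of_nonneg_left (by linarith) (by positivity)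

end Pool.Agent.Lib.MP_bdd9a3_nt.UP
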