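import Mathlib
import Pool.Agent.Lib.MP_bdd9a3_nt.UP.SKb

set_option autoImplicit false

/-!
The upper bound before the choice of the parameters.
-/

namespace Pool.Agent.Lib.MP_bdd9a3_nt.UP

open Finset Pool.Agent.Lib.MP_bdd9a3_nt.SP

/-- `n ≤ τ(n) φ(n)` -/
lemma le_tau_mul_phi (n : ℕ) (hn : 0 < n) : n ≤ n.divisors.card * n.totient := by
  induction n using Nat.recOnPosPrimePosCoprime with
  | zero => omega
  | one => simp
  | prime_pow p k hp hk =>
    rw [Nat.divisors_prime_pow hp, card_map, card_range, Nat.totient_prime_pow hp hk]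
    obtain ⟨j, rfl⟩ : ∃ j, k = j + 1 := ⟨k - 1, by omega⟩
    have hp2 := hp.two_le
    rw [Nat.add_sub_cancel, pow_succ]
    have h1 : p ≤ (j + 1 + 1) * (p - 1) := by
      obtain ⟨q, rfl⟩ : ∃ q, p = q + 2 := ⟨p - 2, by omega⟩
      have : q + 2 - 1 = q + 1 := by omega
      rw [this]
      nlinarith [Nat.zero_le j, Nat.zero_le q, Nat.zero_le (j * q)]
    calc p ^ j * p ≤ p ^ j * ((j + 1 + 1) * (p - 1)) := Nat.mul_le_mul_left _ h1
      _ = _ := by ring
  | coprime a b ha hb hab iha ihb =>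
    rw [hab.card_divisors_mul, Nat.totient_mul hab]
    calc a * b ≤ (a.divisors.card * a.totient) * (b.divisors.card * b.totient) :=
          Nat.mul_le_mul (iha (by omega)) (ihb (by omega))
      _ = _ := by ring

theorem main_raw : ∃ C : ℝ, 1 ≤ C ∧ ∀ (x y z m : ℕ) (D E σ τ0 : ℝ),
    1 ≤ D → D * y ≤ x → 1 ≤ z → 2 ≤ y → x < (z * y) ^ (m + 1) → 1 ≤ E → 0 < σ → σ ≤ 1 → 1 ≤ τ0 →
    EE σ y ≤ E →
    (∀ n : ℕ, (n : ℝ) ≤ x → (n.divisors.card : ℝ) ≤ τ0) →
    ((NN x y D).card : ℝ) ≤ (m + 1) * ((z * (y : ℝ) ^ (m + 1)) * (τ0 / D)) *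
      ((3 * C * τ0 ^ m * E ^ m * (z * (y : ℝ) ^ (m + 1))) *
      ((x : ℝ) ^ σ * ((D * y) ^ (2 * (1 - σ)) * max 1 ((D * y) ^ (3 * σ - 2)) * E) +
        (x : ℝ) ^ (σ / 2) * ((D * y) ^ 2 * E))) := by
  classical
  obtain ⟨C, hC, hSK⟩ := SK_le
  refine ⟨C, hC, ?_⟩
  intro x y z m D E σ τ0 hD hDx hz hy hx hE hσ0 hσ1 hτ0 hEE hdiv
  have hC0 : 0 < C := by linarith
  have hy1 : (1 : ℝ) ≤ y := by exact_mod_cast (show 1 ≤ y by omega)
  have hz1 : (1 : ℝ) ≤ z := by exact_mod_cast hz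
  have hD0 : 0 < D := by linarith
  set W : ℝ := D * y with hW
  have hW1 : 1 ≤ W := by rw [hW]; nlinarith
  have hW0 : 0 < W := by linarith
  have hX1 : (1 : ℝ) ≤ x := hW1.trans hDx
  have hcard : ((AA y z).card : ℝ) ≤ ((z * y : ℕ) : ℝ) ^ σ * E := by
    refine (card_le hσ0 y ((z * y : ℕ) : ℝ) (Nat.cast_nonneg _) (AA y z) ?_).trans ?_
    · intro n hn
      unfold AA at hn
      rw [mem_filter, mem_Ico] at hn
      exact ⟨hn.2, by exact_mod_cast hn.1.2.le⟩
    · exact mul_le_mul_of_nonneg_left hEE (by positivity)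
  set U : ℝ := 3 * C * τ0 ^ m * E ^ m * (z * (y : ℝ) ^ (m + 1)) with hU
  have hU0 : 0 ≤ U := by positivity
  set M : ℝ := max 1 (W ^ (3 * σ - 2)) with hM
  have hM1 : 1 ≤ M := le_max_left _ _
  set R : ℝ := (x : ℝ) ^ σ * (W ^ (2 * (1 - σ)) * M * E) + (x : ℝ) ^ (σ / 2) * (W ^ 2 * E) with hR
  have hHmem : ∀ h ∈ HH y D, Sm y h ∧ (1 : ℝ) ≤ h ∧ (h : ℝ) ≤ W := by
    intro h hh
    unfold HH at hh
    rw [mem_filter, mem_Icc] at hh
    refine ⟨hh.2, by exact_mod_cast hh.1.1, ?_⟩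
    exact le_trans (by exact_mod_cast hh.1.2) (Nat.floor_le hW0.le)
  -- the sum over `h`
  have hsum : ∀ K ∈ (range (m + 1)).filter (fun K => (z * y) ^ K ≤ x),
      ∑ h ∈ HH y D, SK y z K h ⌊D * y / h⌋₊ ≤ U * R := by
    intro K hK
    rw [mem_filter, mem_range] at hK
    have h1 : ∀ h ∈ HH y D, SK y z K h ⌊D * y / h⌋₊ ≤
        U * ((x : ℝ) ^ σ * (W ^ (2 * (1 - σ)) * M * (h : ℝ) ^ (-σ)) +
          (x : ℝ) ^ (σ / 2) * (W ^ 2 * (h : ℝ) ^ (-σ))) := by
      intro h hh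
      obtain ⟨_, hh1, hh2⟩ := hHmem h hh
      have hh0 : (0 : ℝ) < h := by linarith
      have hq1 : 1 ≤ W / h := by rw [one_le_div hh0]; exact hh2
      have hQ1 : 1 ≤ ⌊D * y / h⌋₊ := Nat.le_floor (by push_cast; exact hq1)
      have hQ2 : ((⌊D * y / h⌋₊ : ℕ) : ℝ) ≤ W / h := Nat.floor_le (by positivity)
      set Q : ℕ := ⌊D * y / h⌋₊ with hQ
      have h2 := hSK y z K h Q m x E σ τ0 hz hy (by omega) hQ1 hE hσ0.le hσ1 hτ0
        (by exact_mod_cast hK.2) hcard hdiv
      refine h2.trans (mul_le_mul_of_nonneg_left ?_ hU0)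
      refine add_le_add (mul_le_mul_of_nonneg_left ?_ (by positivity))
        (mul_le_mul_of_nonneg_left ?_ (by positivity))
      · calc ((Q : ℝ) ^ 2) ^ (1 - σ) ≤ ((W / h) ^ 2) ^ (1 - σ) :=
              Real.rpow_le_rpow (by positivity) (pow_le_pow_left₀ (by positivity) hQ2 2) (by linarith)
          _ = (W / h) ^ (2 * (1 - σ)) := by
              rw [← Real.rpow_natCast (W / h) 2, ← Real.rpow_mul (by positivity)]
              norm_num
          _ = W ^ (2 * (1 - σ)) * ((h : ℝ) ^ (3 * σ - 2) * (h : ℝ) ^ (-σ)) := by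
              rw [Real.div_rpow hW0.le hh0.le, div_eq_mul_inv, ← Real.rpow_neg hh0.le,
                ← Real.rpow_add hh0]
              congr 2
              ring
          _ ≤ W ^ (2 * (1 - σ)) * (M * (h : ℝ) ^ (-σ)) := by
              refine mul_le_mul_of_nonneg_left ?_ (by positivity)
              refine mul_le_mul_of_nonneg_right ?_ (by positivity)
              rcases le_total 0 (3 * σ - 2) with h3 | h3
              · exact (Real.rpow_le_rpow hh0.le hh2 h3).trans (le_max_right _ _)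
              · exact (Real.rpow_le_one_of_one_le_of_nonpos hh1 h3).trans (le_max_left _ _)
          _ = _ := by ring
      · calc (Q : ℝ) ^ 2 ≤ (W / h) ^ 2 := pow_le_pow_left₀ (by positivity) hQ2 2
          _ = W ^ 2 * (h : ℝ) ^ (-2 : ℝ) := by
              rw [div_pow, div_eq_mul_inv]
              congr 1
              rw [Real.rpow_neg hh0.le]
              norm_num
          _ ≤ W ^ 2 * (h : ℝ) ^ (-σ) := by
              refine mul_le_mul_of_nonneg_left ?_ (by positivity)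
              exact Real.rpow_le_rpow_of_exponent_le hh1 (by linarith)
    refine (sum_le_sum h1).trans ?_
    rw [← Finset.mul_sum, Finset.sum_add_distrib, ← Finset.mul_sum, ← Finset.mul_sum,
      ← Finset.mul_sum, ← Finset.mul_sum]
    have h4 : ∑ h ∈ HH y D, (h : ℝ) ^ (-σ) ≤ E :=
      (sum_le hσ0 y (HH y D) fun h hh => (hHmem h hh).1).trans hEE
    rw [hR]
    gcongr
  -- conclusion
  have h5 : ((NN x y D).card : ℝ) ≤ ∑ K ∈ (range (m + 1)).filter (fun K => (z * y) ^ K ≤ x),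
      ∑ d ∈ DY y D, ((SO y z K d).card : ℝ) := by
    exact_mod_cast NN_card_le hD hz hy hx
  refine h5.trans ?_
  have h6 : ∀ K ∈ (range (m + 1)).filter (fun K => (z * y) ^ K ≤ x),
      ∑ d ∈ DY y D, ((SO y z K d).card : ℝ) ≤
        ((z * (y : ℝ) ^ (m + 1)) * (τ0 / D)) * (U * R) := by
    intro K hK
    have h7 := SO_le (y := y) (z := z) (K := K) (D := D) (T := τ0) hD (by linarith) (by
      intro d hd
      unfold DY at hd
      rw [mem_filter, mem_Icc] at hd
      have h8 := le_tau_mul_phi d hd.2.1.pos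
      have h9 : (d : ℝ) ≤ x := by
        refine le_trans ?_ hDx
        exact le_trans (by exact_mod_cast hd.1.2) (Nat.floor_le hW0.le)
      calc (d : ℝ) ≤ (d.divisors.card : ℝ) * d.totient := by exact_mod_cast h8
        _ ≤ τ0 * d.totient := mul_le_mul_of_nonneg_right (hdiv d h9) (Nat.cast_nonneg _))
    refine h7.trans ?_
    have h10 : ((z * y ^ (K + 1) : ℕ) : ℝ) ≤ z * (y : ℝ) ^ (m + 1) := by
      push_cast
      refine mul_le_mul_of_nonneg_left ?_ (by linarith)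
      refine pow_le_pow_right₀ hy1 ?_
      rw [mem_filter, mem_range] at hK
      omega
    refine mul_le_mul ?_ (hsum K hK) (sum_nonneg fun _ _ => SK_nonneg _ _ _ _ _) (by positivity)
    exact mul_le_mul_of_nonneg_right h10 (by positivity)
  refine (sum_le_sum h6).trans ?_
  rw [sum_const, nsmul_eq_mul, mul_assoc]
  have hR0 : 0 ≤ R := by
    rw [hR]
    have : 0 ≤ M := by linarith
    positivity
  have h11 : ((#((range (m + 1)).filter (fun K => (z * y) ^ K ≤ x)) : ℕ) : ℝ) ≤ m + 1 := by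
    have h12 : #((range (m + 1)).filter (fun K => (z * y) ^ K ≤ x)) ≤ m + 1 := by
      refine (card_filter_le _ _).trans ?_
      rw [card_range]
    exact_mod_cast h12
  rw [mul_assoc (m + 1 : ℝ)]
  refine mul_le_mul h11 (le_of_eq (by ring)) ?_ (by positivity)
  positivity

end Pool.Agent.Lib.MP_bdd9a3_nt.UP
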