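import Mathlib
import Pool.Agent.Lib.MP_a17b09_nt.Divisor
import Pool.Agent.Lib.MP_bdd9a3_nt.UP.Main

set_option autoImplicit false

/-!
The upper bound for the number of smooth pairs.
-/

namespace Pool.Agent.Lib.MP_bdd9a3_nt.UP

open Finset Filter

lemma mulle {X α β a b : ℝ} (hX : 0 < X) (hb : 0 ≤ b) (h1 : a ≤ X ^ α) (h2 : b ≤ X ^ β) :
    a * b ≤ X ^ (α + β) := by
  rw [Real.rpow_add hX]
  exact mul_le_mul h1 h2 hb (by positivity)

lemma powle {X α a : ℝ} (hX : 0 < X) (ha : 0 ≤ a) (h1 : a ≤ X ^ α) (k : ℕ) :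
    a ^ k ≤ X ^ ((k : ℝ) * α) := by
  rw [mul_comm, Real.rpow_mul hX.le, Real.rpow_natCast]
  exact pow_le_pow_left₀ ha h1 k

lemma rpowle {X α a t : ℝ} (hX : 0 < X) (ha : 0 ≤ a) (h1 : a ≤ X ^ α) (ht : 0 ≤ t) :
    a ^ t ≤ X ^ (α * t) := by
  rw [Real.rpow_mul hX.le]
  exact Real.rpow_le_rpow ha h1 ht

/-- constants are small powers -/
lemma ev_const (K ν : ℝ) (hν : 0 < ν) : ∀ᶠ x : ℕ in atTop, K ≤ (x : ℝ) ^ ν :=
  ((tendsto_rpow_atTop hν).comp tendsto_natCast_atTop_atTop).eventually_ge_atTop K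

lemma ev_log (A ν : ℝ) (hν : 0 < ν) :
    ∀ᶠ x : ℕ in atTop, Real.log x ^ A ≤ (x : ℝ) ^ ν := by
  have h1 := (isLittleO_log_rpow_rpow_atTop A hν).bound (c := 1) one_pos
  have h2 := tendsto_natCast_atTop_atTop (R := ℝ).eventually h1
  filter_upwards [h2, eventually_ge_atTop 1] with x hx h0
  have h3 : (0 : ℝ) ≤ Real.log x := Real.log_nonneg (by exact_mod_cast h0)
  rw [one_mul, Real.norm_of_nonneg (Real.rpow_nonneg h3 _),
    Real.norm_of_nonneg (by positivity)] at hx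
  exact hx

lemma ev_euler (A ν : ℝ) (hA : 2 < A) (hν : 0 < ν) (hν2 : ν ≤ 1 / A) :
    ∀ᶠ x : ℕ in atTop, EE (1 - 1 / A + ν) ⌊Real.log x ^ A⌋₊ ≤ (x : ℝ) ^ ν := by
  have hA0 : 0 < A := by linarith
  have hAν : 0 < A * ν := by positivity
  -- `4 L ^ (1 - A ν) (1 + A log L) ≤ ν L`
  have h1 : ∀ᶠ L : ℝ in atTop, 4 * (L ^ (1 - A * ν) * (1 + A * Real.log L)) ≤ ν * L := by
    have h2 : (fun L : ℝ => 1 + A * Real.log L) =o[atTop] fun L : ℝ => L ^ (A * ν) := by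
      refine Asymptotics.IsLittleO.add ?_ ((isLittleO_log_rpow_atTop hAν).const_mul_left A)
      exact (Asymptotics.isLittleO_const_left.2 (Or.inr (by
        exact (tendsto_norm_atTop_atTop.comp (tendsto_rpow_atTop hAν)))))
    filter_upwards [h2.bound (c := ν / 4) (by positivity), eventually_ge_atTop 1] with L hL hL1
    have hL0 : (0 : ℝ) < L := by linarith
    have hn : ‖L ^ (A * ν)‖ = L ^ (A * ν) := Real.norm_of_nonneg (by positivity)
    rw [hn] at hL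
    have h3 : 1 + A * Real.log L ≤ ν / 4 * L ^ (A * ν) := (le_abs_self _).trans hL
    calc 4 * (L ^ (1 - A * ν) * (1 + A * Real.log L)) ≤
        4 * (L ^ (1 - A * ν) * (ν / 4 * L ^ (A * ν))) := by gcongr
      _ = ν * (L ^ (1 - A * ν) * L ^ (A * ν)) := by ring
      _ = ν * L := by
          rw [← Real.rpow_add hL0]
          simp
  have h4 := (Real.tendsto_log_atTop.comp (tendsto_natCast_atTop_atTop (R := ℝ))).eventually h1
  have h5 := (Real.tendsto_log_atTop.comp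
    (tendsto_natCast_atTop_atTop (R := ℝ))).eventually_ge_atTop 2
  filter_upwards [h4, h5, eventually_ge_atTop 1] with x hx hL2 hx1
  simp only [Function.comp] at hx hL2
  set L : ℝ := Real.log x with hL
  have hx0 : (0 : ℝ) < x := by exact_mod_cast hx1
  have hL0 : 0 < L := by linarith
  have hσ1 : 1 / 2 ≤ 1 - 1 / A + ν := by
    have : 1 / A ≤ 1 / 2 := one_div_le_one_div_of_le (by norm_num) hA.le
    linarith
  have hσ2 : 1 - 1 / A + ν ≤ 1 := by linarith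
  refine (EE_le hσ1 hσ2 _).trans ?_
  rw [Real.rpow_def_of_pos hx0, Real.exp_le_exp]
  refine le_trans ?_ (hx.trans (le_of_eq (mul_comm _ _)))
  have hLA : 1 ≤ L ^ A := Real.one_le_rpow (by linarith) hA0.le
  have hy1 : 1 ≤ ⌊L ^ A⌋₊ := Nat.le_floor (by simpa using hLA)
  have hy1' : (1 : ℝ) ≤ (⌊L ^ A⌋₊ : ℝ) := by exact_mod_cast hy1
  have hy2 : ((⌊L ^ A⌋₊ : ℕ) : ℝ) ≤ L ^ A := Nat.floor_le (by positivity)
  refine mul_le_mul_of_nonneg_left ?_ (by norm_num)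
  have e1 : ((⌊L ^ A⌋₊ : ℕ) : ℝ) ^ (1 - (1 - 1 / A + ν)) ≤ L ^ (1 - A * ν) := by
    calc ((⌊L ^ A⌋₊ : ℕ) : ℝ) ^ (1 - (1 - 1 / A + ν)) ≤ (L ^ A) ^ (1 - (1 - 1 / A + ν)) :=
          Real.rpow_le_rpow (by positivity) hy2 (by linarith)
      _ = L ^ (1 - A * ν) := by
          rw [← Real.rpow_mul hL0.le]
          congr 1
          field_simp
          ring
  have e2 : Real.log (⌊L ^ A⌋₊ : ℝ) ≤ A * Real.log L := by
    rw [← Real.log_rpow hL0]
    exact Real.log_le_log (by linarith) hy2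
  have e3 : 0 ≤ Real.log (⌊L ^ A⌋₊ : ℝ) := Real.log_nonneg hy1'
  exact mul_le_mul e1 (by linarith) (by linarith) (by positivity)

theorem upper (A c ε : ℝ) (hA : 2 < A) (hc : 0 < c) (hc2 : c ≤ 1 / 2) (hε : 0 < ε) :
    ∃ X0 : ℕ, ∀ x : ℕ, X0 ≤ x →
      (({n : ℕ | 1 ≤ n ∧ n ≤ x ∧ (∀ p : ℕ, p.Prime → p ∣ n → (p : ℝ) ≤ Real.log x ^ A) ∧
        ∃ d : ℕ, d ∣ n + 1 ∧ (x : ℝ) ^ c < d ∧
          ∀ p : ℕ, p.Prime → p ∣ d → (p : ℝ) ≤ Real.log x ^ A}.ncard : ℕ) : ℝ) ≤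
      (x : ℝ) ^ (1 - 1 / A - min (c / A) (min (c * (1 - 2 / A)) ((1 - 1 / A) / 2 - c)) + ε) := by
  classical
  obtain ⟨C, hC, hraw⟩ := main_raw
  have hA0 : 0 < A := by linarith
  have hA1 : 1 / A < 1 / 2 := one_div_lt_one_div_of_lt (by norm_num) hA
  have hA2 : 0 < 1 / A := by positivity
  obtain ⟨m, hm⟩ := exists_nat_ge (4 / ε)
  have hm0 : (0 : ℝ) < m := lt_of_lt_of_le (by positivity) hm
  have hm1 : 1 ≤ m := by
    have : (0 : ℝ) < m := hm0
    exact_mod_cast this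
  set ν : ℝ := min (ε / (2 * (4 * m + 15))) (min (1 / A) (1 / 6)) with hν
  have hν0 : 0 < ν := by
    rw [hν]
    refine lt_min (by positivity) (lt_min hA2 (by norm_num))
  have hν1 : ν ≤ ε / (2 * (4 * m + 15)) := min_le_left _ _
  have hν2 : ν ≤ 1 / A := (min_le_right _ _).trans (min_le_left _ _)
  have hν3 : ν ≤ 1 / 6 := (min_le_right _ _).trans (min_le_right _ _)
  have hν4 : ν * (4 * m + 15) ≤ ε / 2 := by
    calc ν * (4 * m + 15) ≤ ε / (2 * (4 * m + 15)) * (4 * m + 15) :=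
          mul_le_mul_of_nonneg_right hν1 (by positivity)
      _ = ε / 2 := by field_simp
  have hm2 : 2 / (m : ℝ) ≤ ε / 2 := by
    rw [div_le_iff₀ hm0]
    rw [div_le_iff₀ hε] at hm
    linarith
  obtain ⟨Cd, hCd, hdiv⟩ := Pool.Agent.Lib.MP_a17b09_nt.card_divisors_le (ν / 2) (by positivity)
  have hev : ∀ᶠ x : ℕ in atTop, Cd ≤ (x : ℝ) ^ (ν / 2) ∧ 3 * C ≤ (x : ℝ) ^ ν ∧
      (m : ℝ) + 1 ≤ (x : ℝ) ^ ν ∧ 2 ≤ (x : ℝ) ^ ν ∧ Real.log x ^ A ≤ (x : ℝ) ^ ν ∧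
      EE (1 - 1 / A + ν) ⌊Real.log x ^ A⌋₊ ≤ (x : ℝ) ^ ν ∧ 2 ≤ Real.log x ∧ 1 ≤ x := by
    have h5 := (Real.tendsto_log_atTop.comp
      (tendsto_natCast_atTop_atTop (R := ℝ))).eventually_ge_atTop 2
    filter_upwards [ev_const Cd (ν / 2) (by positivity), ev_const (3 * C) ν hν0,
      ev_const (m + 1) ν hν0, ev_const 2 ν hν0, ev_log A ν hν0, ev_euler A ν hA hν0 hν2, h5,
      eventually_ge_atTop 1] with x a1 a2 a3 a4 a5 a6 a7 a8
    exact ⟨a1, a2, a3, a4, a5, a6, a7, a8⟩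
  obtain ⟨X0, hX0⟩ := eventually_atTop.1 hev
  refine ⟨X0, fun x hx => ?_⟩
  obtain ⟨a1, a2, a3, a4, a5, a6, a7, a8⟩ := hX0 x hx
  set X : ℝ := (x : ℝ) with hX
  have hX1 : 1 ≤ X := by rw [hX]; exact_mod_cast a8
  have hXpos : 0 < X := by linarith
  set y : ℕ := ⌊Real.log x ^ A⌋₊ with hy
  set σ : ℝ := 1 - 1 / A + ν with hσ
  set z : ℕ := ⌈X ^ (1 / (m : ℝ))⌉₊ with hz
  have hL2 : (4 : ℝ) ≤ Real.log x ^ A := by
    calc (4 : ℝ) = 2 ^ (2 : ℝ) := by norm_num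
      _ ≤ Real.log x ^ (2 : ℝ) := Real.rpow_le_rpow (by norm_num) a7 (by norm_num)
      _ ≤ Real.log x ^ A := Real.rpow_le_rpow_of_exponent_le (by linarith) hA.le
  have hy2 : 2 ≤ y := Nat.le_floor (by push_cast; linarith)
  have hy1 : (1 : ℝ) ≤ y := by exact_mod_cast (show 1 ≤ y by omega)
  have hyν : (y : ℝ) ≤ X ^ ν := (Nat.floor_le (by positivity)).trans a5
  have hzl : X ^ (1 / (m : ℝ)) ≤ z := Nat.le_ceil _
  have hz1' : 1 ≤ X ^ (1 / (m : ℝ)) := Real.one_le_rpow hX1 (by positivity)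
  have hz1 : 1 ≤ z := by
    have : (1 : ℝ) ≤ z := hz1'.trans hzl
    exact_mod_cast this
  have hzu : (z : ℝ) ≤ X ^ (ν + 1 / (m : ℝ)) := by
    have h1 : (z : ℝ) ≤ X ^ (1 / (m : ℝ)) + 1 := (Nat.ceil_lt_add_one (by positivity)).le
    rw [Real.rpow_add hXpos]
    calc (z : ℝ) ≤ 2 * X ^ (1 / (m : ℝ)) := by linarith
      _ ≤ X ^ ν * X ^ (1 / (m : ℝ)) := mul_le_mul_of_nonneg_right a4 (by positivity)
  set D : ℝ := X ^ c with hD
  have hD1 : 1 ≤ D := Real.one_le_rpow hX1 hc.le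
  have hWle : D * y ≤ X ^ (c + ν) := mulle hXpos (by positivity) le_rfl hyν
  have hDx : D * y ≤ x := by
    refine hWle.trans ?_
    calc X ^ (c + ν) ≤ X ^ (1 : ℝ) := Real.rpow_le_rpow_of_exponent_le hX1 (by linarith)
      _ = x := Real.rpow_one _
  have hxm : x < (z * y) ^ (m + 1) := by
    have h1 : X ≤ (z : ℝ) ^ m := by
      calc X = (X ^ (1 / (m : ℝ))) ^ m := by
            rw [← Real.rpow_natCast, ← Real.rpow_mul hXpos.le, one_div_mul_cancel hm0.ne',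
              Real.rpow_one]
        _ ≤ (z : ℝ) ^ m := pow_le_pow_left₀ (by positivity) hzl m
    have h2 : x ≤ z ^ m := by
      rw [hX] at h1
      exact_mod_cast h1
    calc x ≤ z ^ m := h2
      _ < z ^ m * y := by
          have : 0 < z ^ m := by positivity
          nlinarith
      _ ≤ z ^ (m + 1) * y ^ (m + 1) := by
          refine Nat.mul_le_mul (Nat.pow_le_pow_right hz1 (by omega)) ?_
          exact Nat.le_self_pow (by omega) y
      _ = (z * y) ^ (m + 1) := (mul_pow _ _ _).symm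
  have hE1 : 1 ≤ X ^ ν := Real.one_le_rpow hX1 hν0.le
  have hσ0 : 0 < σ := by rw [hσ]; linarith
  have hσ1 : σ ≤ 1 := by rw [hσ]; linarith
  have hτ : ∀ n : ℕ, (n : ℝ) ≤ x → (n.divisors.card : ℝ) ≤ X ^ ν := by
    intro n hn
    rcases Nat.eq_zero_or_pos n with h0 | h0
    · rw [h0]
      simp only [Nat.divisors_zero, card_empty, Nat.cast_zero]
      linarith
    · calc (n.divisors.card : ℝ) ≤ Cd * (n : ℝ) ^ (ν / 2) := hdiv n h0
        _ ≤ X ^ (ν / 2) * X ^ (ν / 2) := by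
            refine mul_le_mul a1 ?_ (by positivity) (by positivity)
            exact Real.rpow_le_rpow (by positivity) hn (by positivity)
        _ = X ^ ν := by
            rw [← Real.rpow_add hXpos]
            congr 1
            ring
  have hmain := hraw x y z m D (X ^ ν) σ (X ^ ν) hD1 hDx hz1 hy2 hxm hE1 hσ0 hσ1 hE1 a6 hτ
  -- the set is contained in `NN`
  have hsub : {n : ℕ | 1 ≤ n ∧ n ≤ x ∧ (∀ p : ℕ, p.Prime → p ∣ n → (p : ℝ) ≤ Real.log x ^ A) ∧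
        ∃ d : ℕ, d ∣ n + 1 ∧ (x : ℝ) ^ c < d ∧
          ∀ p : ℕ, p.Prime → p ∣ d → (p : ℝ) ≤ Real.log x ^ A} ⊆ ((NN x y D : Finset ℕ) : Set ℕ) := by
    rintro n ⟨h1, h2, h3, d, h4, h5, h6⟩
    unfold NN
    rw [mem_coe, mem_filter, mem_Icc]
    refine ⟨⟨h1, h2⟩, ⟨by omega, fun p hp hpn => Nat.le_floor (h3 p hp hpn)⟩, d, h4, h5, ?_,
      fun p hp hpd => Nat.le_floor (h6 p hp hpd)⟩
    rintro rfl
    have := Nat.eq_zero_of_zero_dvd h4
    omega
  have hcard : (({n : ℕ | 1 ≤ n ∧ n ≤ x ∧ (∀ p : ℕ, p.Prime → p ∣ n → (p : ℝ) ≤ Real.log x ^ A) ∧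
        ∃ d : ℕ, d ∣ n + 1 ∧ (x : ℝ) ^ c < d ∧
          ∀ p : ℕ, p.Prime → p ∣ d → (p : ℝ) ≤ Real.log x ^ A}.ncard : ℕ) : ℝ) ≤
      ((NN x y D).card : ℝ) := by
    have := Set.ncard_le_ncard hsub (Finset.finite_toSet _)
    rw [Set.ncard_coe_finset] at this
    exact_mod_cast this
  refine hcard.trans (hmain.trans ?_)
  -- the exponents
  have hW0 : 0 < D * y := by positivity
  have hW1 : 1 ≤ D * y := by nlinarith
  have b1 : ((m : ℝ) + 1) ≤ X ^ ν := a3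
  have b2 : (z : ℝ) * (y : ℝ) ^ (m + 1) ≤ X ^ ((ν + 1 / (m : ℝ)) + ((m + 1 : ℕ) : ℝ) * ν) :=
    mulle hXpos (by positivity) hzu (powle hXpos (by positivity) hyν (m + 1))
  have b3 : X ^ ν / D ≤ X ^ (ν + -c) := by
    rw [Real.rpow_add hXpos, Real.rpow_neg hXpos.le, div_eq_mul_inv]
  have b4 : 3 * C * (X ^ ν) ^ m * (X ^ ν) ^ m * (z * (y : ℝ) ^ (m + 1)) ≤
      X ^ (((ν + (m : ℝ) * ν) + (m : ℝ) * ν) +
        ((ν + 1 / (m : ℝ)) + ((m + 1 : ℕ) : ℝ) * ν)) := by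
    refine mulle hXpos (by positivity) ?_ b2
    refine mulle hXpos (by positivity) ?_ (powle hXpos (by positivity) le_rfl m)
    exact mulle hXpos (by positivity) a2 (powle hXpos (by positivity) le_rfl m)
  have b5 : (D * y) ^ (2 * (1 - σ)) ≤ X ^ ((c + ν) * (2 * (1 - σ))) :=
    rpowle hXpos hW0.le hWle (by linarith)
  set μ : ℝ := max 0 (c * (1 - 3 / A)) + 4 * ν with hμ
  have hμ0 : 0 ≤ μ := by
    have := le_max_left 0 (c * (1 - 3 / A))
    rw [hμ]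
    linarith
  have b6 : max 1 ((D * y) ^ (3 * σ - 2)) ≤ X ^ μ := by
    refine max_le (Real.one_le_rpow hX1 hμ0) ?_
    rcases le_total (3 * σ - 2) 0 with h0 | h0
    · exact (Real.rpow_le_one_of_one_le_of_nonpos hW1 h0).trans (Real.one_le_rpow hX1 hμ0)
    · refine (rpowle hXpos hW0.le hWle h0).trans ?_
      refine Real.rpow_le_rpow_of_exponent_le hX1 ?_
      have e1 : 3 * σ - 2 = (1 - 3 / A) + 3 * ν := by
        rw [hσ]
        ring
      rw [e1, hμ]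
      have e2 : c * (1 - 3 / A) ≤ max 0 (c * (1 - 3 / A)) := le_max_right _ _
      have e3 : ν * (1 - 3 / A) ≤ ν := by
        have : 0 ≤ 3 / A := by positivity
        exact mul_le_of_le_one_right hν0.le (by linarith)
      have e4 : 3 * ν * (c + ν) ≤ 3 * ν * (2 / 3) :=
        mul_le_mul_of_nonneg_left (by linarith) (by positivity)
      have e5 : (c + ν) * (1 - 3 / A + 3 * ν) =
          c * (1 - 3 / A) + ν * (1 - 3 / A) + 3 * ν * (c + ν) := by ring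
      rw [e5]
      linarith
  have b7 : X ^ σ * ((D * y) ^ (2 * (1 - σ)) * max 1 ((D * y) ^ (3 * σ - 2)) * X ^ ν) ≤
      X ^ (σ + ((c + ν) * (2 * (1 - σ)) + μ + ν)) := by
    refine mulle hXpos (by positivity) le_rfl ?_
    refine mulle hXpos (by positivity) ?_ le_rfl
    exact mulle hXpos (by positivity) b5 b6
  have b8 : X ^ (σ / 2) * ((D * y) ^ 2 * X ^ ν) ≤ X ^ (σ / 2 + (((2 : ℕ) : ℝ) * (c + ν) + ν)) := by
    refine mulle hXpos (by positivity) le_rfl ?_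
    exact mulle hXpos (by positivity) (powle hXpos hW0.le hWle 2) le_rfl
  set δ : ℝ := min (c / A) (min (c * (1 - 2 / A)) ((1 - 1 / A) / 2 - c)) with hδ
  have hδ1 : δ ≤ c / A := min_le_left _ _
  have hδ2 : δ ≤ c * (1 - 2 / A) := (min_le_right _ _).trans (min_le_left _ _)
  have hδ3 : δ ≤ (1 - 1 / A) / 2 - c := (min_le_right _ _).trans (min_le_right _ _)
  set P : ℝ := 1 - 1 / A - δ + c + 8 * ν with hP
  have b9 : X ^ σ * ((D * y) ^ (2 * (1 - σ)) * max 1 ((D * y) ^ (3 * σ - 2)) * X ^ ν) +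
      X ^ (σ / 2) * ((D * y) ^ 2 * X ^ ν) ≤ X ^ P := by
    have e1 : σ + ((c + ν) * (2 * (1 - σ)) + μ + ν) ≤ P - ν := by
      have f1 : (c + ν) * (2 * (1 - σ)) ≤ 2 * c / A + ν := by
        have f2 : 1 - σ = 1 / A - ν := by rw [hσ]; ring
        rw [f2]
        have f3 : 2 * c / A = 2 * c * (1 / A) := by ring
        rw [f3]
        have f5 : (c + ν) * (2 * (1 / A - ν)) =
            2 * c * (1 / A) + ν * (2 * (1 / A)) - 2 * (c * ν) - 2 * (ν * ν) := by ring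
        have f6 : ν * (2 * (1 / A)) ≤ ν := mul_le_of_le_one_right hν0.le (by linarith)
        have f7 : 0 ≤ c * ν := by positivity
        have f8 : 0 ≤ ν * ν := by positivity
        rw [f5]
        linarith
      have f4 : max 0 (c * (1 - 3 / A)) ≤ c - δ - 2 * c / A := by
        refine max_le ?_ ?_
        · have : c * (1 - 2 / A) = c - 2 * c / A := by ring
          linarith
        · have : c * (1 - 3 / A) = c - c / A - 2 * c / A := by ring
          linarith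
      rw [hμ, hP, hσ]
      linarith
    have e2 : σ / 2 + (((2 : ℕ) : ℝ) * (c + ν) + ν) ≤ P - ν := by
      rw [hP, hσ]
      push_cast
      linarith
    have e3 : X ^ (P - ν) * X ^ ν = X ^ P := by
      rw [← Real.rpow_add hXpos]
      congr 1
      ring
    have e4 := b7.trans (Real.rpow_le_rpow_of_exponent_le hX1 e1)
    have e5 := b8.trans (Real.rpow_le_rpow_of_exponent_le hX1 e2)
    have e6 : 0 < X ^ (P - ν) := by positivity
    have e7 : 2 * X ^ (P - ν) ≤ X ^ (P - ν) * X ^ ν := by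
      rw [mul_comm 2]
      exact mul_le_mul_of_nonneg_left a4 e6.le
    rw [← e3]
    linarith
  have b10 : ((m : ℝ) + 1) * (z * (y : ℝ) ^ (m + 1) * (X ^ ν / D)) ≤
      X ^ (ν + (((ν + 1 / (m : ℝ)) + ((m + 1 : ℕ) : ℝ) * ν) + (ν + -c))) := by
    refine mulle hXpos (by positivity) b1 ?_
    exact mulle hXpos (by positivity) b2 b3
  have b11 := mulle hXpos (by positivity) b10 (mulle hXpos (by positivity) b4 b9)
  refine b11.trans (Real.rpow_le_rpow_of_exponent_le hX1 ?_)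
  have e7 : 2 * (1 / (m : ℝ)) = 2 / m := by ring
  have e8 : ν * (4 * m + 15) = 4 * (m * ν) + 15 * ν := by ring
  rw [e8] at hν4
  rw [hP]
  push_cast
  linarith

end Pool.Agent.Lib.MP_bdd9a3_nt.UP
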